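import Pool.Agent.H22.T3
import Pool.Agent.H22.Glue

set_option autoImplicit false
open MeasureTheory Set Pool.Agent.H22.T3 Pool.Agent.H22.Glue
open scoped ENNReal

namespace Pool.Agent.Results.MP_b3cd0c_pr.NoFinitary
noncomputable section

/-- i.i.d. uniform labels on the vertices -/
def μ : Measure (V → unitInterval) := Measure.infinitePi fun _ => volume

/-- every vertex lies in exactly one chosen edge -/
def IsPM (η : G.edgeSet → Bool) : Prop := ∀ v, ∃! e : G.edgeSet, v ∈ e.1 ∧ η e = true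

/-- the coding radius at the root -/
def radius (Φ : (V → unitInterval) → G.edgeSet → Bool) (ω : V → unitInterval) : ℕ∞ :=
  ⨅ (r : ℕ) (_ : ∀ ω', (∀ v, G.dist o v ≤ r → ω' v = ω v) →
    ∀ e : G.edgeSet, o ∈ e.1 → Φ ω' e = Φ ω e), (r : ℕ∞)

instance : IsProbabilityMeasure μ := by unfold μ; infer_instance

instance : Countable V := by infer_instance

def ed (u : V) (a : Fin 3) : G.edgeSet := ⟨s(u, act a u), ⟨a, rfl⟩⟩

lemma ed_ex (u : V) (e : G.edgeSet) (h : u ∈ e.1) : ∃ a, e = ed u a := by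
  obtain ⟨e, he⟩ := e
  obtain ⟨w, rfl⟩ := Sym2.mem_iff_exists.1 h
  have : ∃ a, act a u = w := he
  exact this.imp fun a ha => Subtype.ext (congrArg (fun x => s(u, x)) ha.symm)

lemma ed_act (u : V) (a : Fin 3) : ed (act a u) a = ed u a := by
  simp [ed, act_act]

lemma ed_inj (u : V) {a b : Fin 3} (h : ed u a = ed u b) : a = b :=
  act_inj u (Sym2.congr_right.1 (congrArg Subtype.val h))

lemma pm_iff {η : G.edgeSet → Bool} (h : IsPM η) (u : V) : ∃! a, η (ed u a) = true := by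
  obtain ⟨e, ⟨h1, h2⟩, h3⟩ := h u
  obtain ⟨a, rfl⟩ := ed_ex u e h1
  exact ⟨a, h2, fun b hb => ed_inj u (h3 _ ⟨Sym2.mem_mk_left _ _, hb⟩)⟩

lemma pm_eq {η η' : G.edgeSet → Bool} (h : IsPM η) (h' : IsPM η')
    (hf : {u | ∃ a, η (ed u a) ≠ η' (ed u a)}.Finite) (u : V) (a : Fin 3) :
    η (ed u a) = η' (ed u a) := by
  by_contra h0
  obtain ⟨v, ⟨c, hc⟩, hm⟩ := exists_max_image _ (fun v : V => v.1.length) hf ⟨u, a, h0⟩
  obtain ⟨a, ha, ha'⟩ := pm_iff h v
  obtain ⟨b, hb, hb'⟩ := pm_iff h' v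
  have hab : a ≠ b := by
    rintro rfl
    exact hc (Bool.eq_iff_iff.2 ⟨fun h => ha' c h ▸ hb, fun h => hb' c h ▸ ha⟩)
  have h1 := hm (act a v) ⟨a, by rw [ed_act, ha]; exact fun h => hab (hb' a h.symm)⟩
  have h2 := hm (act b v) ⟨b, by rw [ed_act, hb]; exact fun h => hab (ha' b h).symm⟩
  rcases up hab v with h | h <;> omega

lemma trans (u : V) : ∃ γ : G ≃g G, γ o = u ∧ ∀ a v, γ (act a v) = act a (γ v) := by
  induction u using ind with
  | h0 => exact ⟨.refl, rfl, fun _ _ => rfl⟩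
  | h1 a u ih =>
    obtain ⟨γ, h1, h2⟩ := ih
    exact ⟨(τ a).trans γ, h1 ▸ h2 a o, fun b v => (congrArg γ (sw_act a b v)).trans (h2 b _)⟩

def pv (σ : Equiv.Perm (Fin 3)) (v : V) : V := v.1.foldr (fun a => act (σ a)) o

lemma pv_act (σ : Equiv.Perm (Fin 3)) (a : Fin 3) (v : V) :
    pv σ (act a v) = act (σ a) (pv σ v) := by
  unfold pv
  rcases act_cases a v with h | h
  · conv_rhs => rw [h, List.foldr_cons, act_act]
  · rw [h.2, List.foldr_cons]

lemma pv_pv (σ : Equiv.Perm (Fin 3)) (v : V) : pv σ.symm (pv σ v) = v := by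
  induction v using ind with
  | h0 => rfl
  | h1 a v h => rw [pv_act, pv_act, h, σ.symm_apply_apply]

def rot (σ : Equiv.Perm (Fin 3)) : G ≃g G where
  toFun := pv σ
  invFun := pv σ.symm
  left_inv := pv_pv σ
  right_inv := pv_pv σ.symm
  map_rel_iff' := fun {u v} => ⟨fun ⟨a, h⟩ => ⟨σ.symm a, by
      rw [← pv_pv σ u, ← pv_act]; exact (congrArg _ h).trans (pv_pv ..)⟩,
    fun ⟨a, h⟩ => ⟨σ a, h ▸ (pv_act ..).symm⟩⟩

lemma ball_fin (n : ℕ) : {v | G.dist o v ≤ n}.Finite :=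
  ((List.finite_length_le (Fin 3) n).preimage Subtype.val_injective.injOn).subset
    fun v h => (len_le v).trans h

lemma mp (γ : G ≃g G) : MeasurePreserving (fun (ω : V → unitInterval) v => ω (γ v)) μ μ :=
  reidx _ γ.toEquiv

variable {Φ : (V → unitInterval) → G.edgeSet → Bool}

lemma rad_le {ω ω' : V → unitInterval} (h0 : radius Φ ω < ⊤)
    (h : ∀ v, (G.dist o v : ℕ∞) ≤ radius Φ ω → ω' v = ω v) (a : Fin 3) :
    Φ ω' (ed o a) = Φ ω (ed o a) := by
  obtain ⟨n, hn⟩ := ENat.ne_top_iff_exists.1 h0.ne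
  have h1 : radius Φ ω < (n + 1 : ℕ) := by rw [← hn]; exact_mod_cast n.lt_succ_self
  obtain ⟨r, h2⟩ := iInf_lt_iff.1 h1
  obtain ⟨h3, h4⟩ := iInf_lt_iff.1 h2
  refine h3 ω' (fun v hv => h v ?_) _ (Sym2.mem_mk_left _ _)
  rw [← hn]
  exact_mod_cast hv.trans (Nat.lt_succ_iff.1 (by exact_mod_cast h4))

def chg (Φ : (V → unitInterval) → G.edgeSet → Bool) (F : Set V) (u : V) :
    Set ((V → unitInterval) × (V → unitInterval)) :=
  {p | ∃ a, Φ (gl F p.1 p.2) (ed u a) ≠ Φ p.1 (ed u a)}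

lemma chg_meas (hΦ : Measurable Φ) (F : Set V) (u : V) : MeasurableSet (chg Φ F u) := by
  have h1 := hΦ.comp (glue_meas F)
  have h2 : Measurable fun p : _ × (V → unitInterval) => Φ p.1 := hΦ.comp measurable_fst
  unfold chg
  rw [ofPred_exists]
  exact .iUnion fun a => (measurableSet_eq_fun ((measurable_pi_apply _).comp h1)
    ((measurable_pi_apply _).comp h2)).compl

theorem result : G.IsTree ∧ (∀ v, (G.neighborSet v).ncard = 3) ∧
    ¬ ∃ Φ : (V → unitInterval) → G.edgeSet → Bool, Measurable Φ ∧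
      (∀ γ : G ≃g G, ∀ᵐ ω ∂μ,
        Φ (fun v => ω (γ.symm v)) = fun e => Φ ω (γ.symm.mapEdgeSet e)) ∧
      (∀ᵐ ω ∂μ, radius Φ ω < ⊤) ∧
      ∫⁻ ω, ({v | (G.dist o v : ℕ∞) ≤ radius Φ ω}.encard : ℝ≥0∞) ∂μ < ⊤ ∧
      ∀ᵐ ω ∂μ, IsPM (Φ ω) := by
  refine ⟨tree, deg, ?_⟩
  rintro ⟨Φ, hΦ, he, hR, hI, hM⟩
  replace he : ∀ γ : G ≃g G, ∀ᵐ ω ∂μ,
    Φ (fun v => ω (γ v)) = fun e => Φ ω (γ.mapEdgeSet e) := fun γ => he γ.symm
  choose γ hγ hγ' using trans
  have hg := fun F : Set V => glue (fun _ : V => (volume : Measure unitInterval)) F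
  have h1 (F : Set V) (u : V) : μ.prod μ (chg Φ F u) = μ.prod μ (chg Φ (γ u ⁻¹' F) o) := by
    rw [← ((mp (γ u)).prod (mp (γ u))).measure_preimage (chg_meas hΦ _ o).nullMeasurableSet]
    refine measure_congr ?_
    filter_upwards [(hg F).quasiMeasurePreserving.ae (he (γ u)),
      Measure.quasiMeasurePreserving_fst.ae (he (γ u))] with p h2 h3
    have h4 (a) : (γ u).mapEdgeSet (ed o a) = ed u a := by
      simp [ed, SimpleGraph.Iso.mapEdgeSet, SimpleGraph.Hom.mapEdgeSet, hγ, hγ']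
    have h5 : gl (γ u ⁻¹' F) (fun v => p.1 (γ u v)) (fun v => p.2 (γ u v)) =
      fun v => gl F p.1 p.2 (γ u v) := rfl
    apply propext
    refine exists_congr fun a => ?_
    change _ ↔ Φ (gl _ (fun v => p.1 (γ u v)) (fun v => p.2 (γ u v))) _ ≠ Φ (fun v => p.1 (γ u v)) _
    simp only [h5, h2, h3, h4]
  have h2 (v : V) : Function.Injective fun u => (γ u).symm v := by
    have h (u w x : V) : γ u x = γ w x → u = w := by
      induction x using ind with
      | h0 => simp [hγ]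
      | h1 a x ih =>
        exact fun h => ih (by simpa [hγ', act_act] using congrArg (act a) h)
    exact fun u w h3 => h u w ((γ u).symm v) (by
      conv_rhs => rw [show (γ u).symm v = (γ w).symm v from h3]
      simp)
  have h3 (F : Finset V) : ∑' u, μ.prod μ (chg Φ F u) ≠ ⊤ := by
    rw [tsum_congr fun u => (h1 F u).trans (lintegral_indicator_one (chg_meas hΦ _ _)).symm,
      ← lintegral_tsum fun u => (measurable_one.indicator (chg_meas hΦ _ _)).aemeasurable,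
      lintegral_prod_symm _ (Measurable.tsum fun u =>
        measurable_one.indicator (chg_meas hΦ _ _)).aemeasurable]
    refine ne_top_of_le_ne_top (b := ∫⁻ _, (F.card : ℝ≥0∞) * ∫⁻ ω, ({v | (G.dist o v : ℕ∞) ≤
      radius Φ ω}.encard : ℝ≥0∞) ∂μ ∂μ) (by simp [ENNReal.mul_ne_top, hI.ne]) ?_
    refine lintegral_mono fun ω' => ?_
    rw [← lintegral_const_mul' _ _ (by simp)]
    refine lintegral_mono_ae ?_
    filter_upwards [hR] with ω hω
    calc _ ≤ ∑' u, ∑ v ∈ F, ((fun u => (γ u).symm v) ⁻¹' {v | (G.dist o v : ℕ∞) ≤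
          radius Φ ω}).indicator (1 : V → ℝ≥0∞) u := ENNReal.tsum_le_tsum fun u => ?_
      _ ≤ ∑ v ∈ F, ({v | (G.dist o v : ℕ∞) ≤ radius Φ ω}.encard : ℝ≥0∞) := ?_
      _ = _ := by simp
    · by_cases h : (ω, ω') ∈ chg Φ (γ u ⁻¹' F) o
      · obtain ⟨a, ha⟩ := id h
        obtain ⟨x, h4, h5⟩ : ∃ x, (G.dist o x : ℕ∞) ≤ radius Φ ω ∧ γ u x ∈ F := by
          by_contra! h4
          exact ha (rad_le hω (fun v hv => gl_out _ _ (h4 v hv)) a)
        refine le_trans ?_ (Finset.single_le_sum (fun _ _ => zero_le) h5)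
        simp [h, h4]
      · simp [h]
    · rw [Summable.tsum_finsetSum fun _ _ => ENNReal.summable]
      refine Finset.sum_le_sum fun v _ => ?_
      rw [← tsum_subtype]
      simp only [Pi.one_apply, ENNReal.tsum_one, ENat.toENNReal_le]
      exact encard_le_encard_of_injOn (mapsTo_preimage _ _) (h2 v).injOn
  have h4 : ∀ᵐ p ∂μ.prod μ, ∀ a, Φ p.1 (ed o a) = Φ p.2 (ed o a) := by
    filter_upwards [ae_all_iff.2 fun F : Finset V => ae_finite_setOfPred_mem (h3 F),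
      ae_all_iff.2 fun F : Finset V => (hg F).quasiMeasurePreserving.ae hM,
      Measure.quasiMeasurePreserving_fst.ae hM,
      Measure.quasiMeasurePreserving_snd.ae hR] with p h4 h5 h6 h7 a
    obtain ⟨n, hn⟩ := ENat.ne_top_iff_exists.1 h7.ne
    rw [← pm_eq (h5 (ball_fin n).toFinset) h6 (h4 _)]
    exact rad_le h7 (fun v hv => gl_in _ _ (by simpa [← hn] using hv)) a
  obtain ⟨ω, h5, h6⟩ := (hM.and (Measure.ae_ae_of_ae_prod h4)).exists
  obtain ⟨a, ha, ha'⟩ := pm_iff h5 o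
  obtain ⟨ω', h7, h8, h9⟩ := (h6.and (((mp (rot (.addRight 1))).quasiMeasurePreserving.ae h6).and
    (he (rot (.addRight 1))))).exists
  have h10 (b) : (rot (.addRight 1)).mapEdgeSet (ed o b) = ed o (b + 1) :=
    Subtype.ext (congrArg (fun x => s(o, x)) (pv_act (.addRight 1) b o))
  have := ha' (a + 1) ((h7 _).trans (by
    rw [← h10]; exact (congrFun h9 _).symm.trans ((h8 a).symm.trans ha)))
  simp at this

end
end Pool.Agent.Results.MP_b3cd0c_pr.NoFinitary
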